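import Pool.Agent.L7h10.AB.Asm
import Pool.Agent.L7h12.AB.Divq
import Pool.Agent.L7h56.AB.Trans

/-!
# Simply branched antiderivatives: divisibility of the number by `q (q - 1)`
-/

namespace Pool.Agent.Results.MP_cc3311_ag.Divisibility

open Pool.Agent.L7h10.AB

/-- `q (q - 1)` divides `N_n(q)` for every `n ≥ 2` and every finite field with `q` elements of
characteristic greater than `n + 1`. -/
theorem result (K : Type) [Field K] [Finite K] (p : ℕ) [CharP K p] (n : ℕ) (hn : 2 ≤ n)
    (hp : n + 1 < p) : Nat.card K * (Nat.card K - 1) ∣ N K n :=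
  divis Pool.Agent.L7h56.AB.s_TRANS Pool.Agent.L7h12.AB.s_DIVQ K p n hn hp

end Pool.Agent.Results.MP_cc3311_ag.Divisibility
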