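import Pool.Agent.L7h10.AB.Asm
import Pool.Agent.L7h10.AB.Inj
import Pool.Agent.L7h10.AB.Col
import Pool.Agent.L7h21.AB.Cntf
import Pool.Agent.L7h25.AB.THREEB
import Pool.Agent.L7h29.AB.Desd
import Pool.Agent.L7h46.AB.Brg
import Pool.Agent.L7h63.AB.Cntp
import Pool.Agent.L7h76.AB.Desc
import Pool.Agent.L7h84.AB.Fix
import Pool.Agent.L7h56.AB.Trans
import Pool.Agent.L7h69.AB.Threea
import Pool.Agent.L7h74.AB.Small

/-!
# Simply branched antiderivatives: the number for degree at most four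

`N K n` is the number of the monic polynomials `f` of degree `n` over the finite field `K` such that
the antiderivative of `f` is simply branched.
-/

namespace Pool.Agent.Results.MP_cc3311_ag.SmallDegrees

open Pool.Agent.L7h10.AB

/-- The numbers `N_1, N_2, N_3, N_4` for every finite field of characteristic greater than
`n + 1`. -/
theorem result (K : Type) [Field K] [Finite K] (p : ℕ) [CharP K p] :
    (2 < p → N K 1 = Nat.card K) ∧
    (3 < p → N K 2 = Nat.card K * (Nat.card K - 1)) ∧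
    (4 < p → N K 3 = Nat.card K * (Nat.card K - 1) ^ 2) ∧
    (5 < p → N K 4 = Nat.card K * (Nat.card K - 1) * (Nat.card K ^ 2 - Nat.card K + 2)) :=
  small Pool.Agent.L7h56.AB.s_TRANS Pool.Agent.L7h74.AB.s_SMALL Pool.Agent.L7h69.AB.s_THREEA
    Pool.Agent.L7h25.AB.s_THREEB s_COL s_INJ Pool.Agent.L7h84.AB.s_FIX Pool.Agent.L7h29.AB.s_DESD
    Pool.Agent.L7h76.AB.s_DESC Pool.Agent.L7h63.AB.s_CNTP Pool.Agent.L7h21.AB.s_CNTF
    Pool.Agent.L7h46.AB.s_BRG K p

end Pool.Agent.Results.MP_cc3311_ag.SmallDegrees
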