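import Pool.Agent.L7h10.AB.Upp
import Pool.Agent.L7h63.AB.Card
import Pool.Agent.L7h73.AB.Res
import Pool.Agent.L7h99.AB.IMG
import Pool.Agent.L7h93.AB.Bada
import Pool.Agent.L7h23.AB.Badb
import Pool.Agent.L7h82.AB.CB
import Pool.Agent.L7h46.AB.Cc

/-!
# Simply branched antiderivatives: an upper bound with the first two terms, all degrees at least
seven
-/

namespace Pool.Agent.Results.MP_cc3311_ag.UpperBound

open Pool.Agent.L7h10.AB

/-- `N_n(q) ≤ q ^ n - 2 q ^ (n - 1) + 9 q ^ (n - 2)` for every `n ≥ 7` and every finite field with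
`q` elements of characteristic greater than `n + 1`. -/
theorem result (K : Type) [Field K] [Finite K] (p : ℕ) [CharP K p] (n : ℕ) (hn : 7 ≤ n)
    (hp : n + 1 < p) :
    N K n + 2 * Nat.card K ^ (n - 1) ≤ Nat.card K ^ n + 9 * Nat.card K ^ (n - 2) :=
  s_UPP Pool.Agent.L7h63.AB.s_CARD Pool.Agent.L7h99.AB.s_IMG Pool.Agent.L7h93.AB.s_BADA
    Pool.Agent.L7h23.AB.s_BADB Pool.Agent.L7h93.AB.s_CA Pool.Agent.L7h82.AB.s_CB
    Pool.Agent.L7h46.AB.s_CC Pool.Agent.L7h73.AB.s_RES K p n hn hp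

end Pool.Agent.Results.MP_cc3311_ag.UpperBound
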